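import Mathlib

/-!
# Under the Proper Forcing Axiom no `ℵ₁`-dense subgroup of the real line is plastic

Let `X` be an `ℵ₁`-dense subgroup, `X ≠ ℝ`.  Fix a countable set `D ⊆ X` dense in the line and a
countable set `E` disjoint from `X` and dense in the line.  A condition is a finite set of triples
`(u, v, d)` with `u < v` in `E` and `d ∈ D` such that for two different triples `(u, v, d)`,
`(u', v', d')`, one of which must lie to the left of the other, say `v < u'`, we have
`0 ≤ d' - d < (u' - v) / 2`.  The map `x ↦ x - d` for `u < x < v` is what the condition decides.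
There are only countably many conditions, so the forcing notion is (trivially) proper.
For each `x ∈ X` the conditions which have `x` in their domain, and those which have `x` in their
range, are dense.  A filter meeting these `ℵ₁` dense sets yields a bijection of `X` onto `X`
which is non-expansive, and it is not an isometry.
-/

open Set Filter Topology

namespace Pool.Agent.Results.MP_d907e7_lc.NoPlasticSubgroupPFA

/-- A metric space is plastic if every non-expansive bijection of the space onto itself is an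
isometry. -/
def Plastic (M : Type*) [MetricSpace M] : Prop :=
  ∀ f : M → M, Function.Bijective f → (∀ x y, dist (f x) (f y) ≤ dist x y) → Isometry f

/-- A set of reals is `ℵ₁`-dense if it meets every nonempty open set of reals in exactly `ℵ₁`
points. -/
def AlephOneDense (X : Set ℝ) : Prop :=
  ∀ U : Set ℝ, IsOpen U → U.Nonempty → Cardinal.mk (X ∩ U : Set ℝ) = Cardinal.aleph 1

/-! ### The Proper Forcing Axiom (stronger conditions are smaller) -/

/-- Two conditions are compatible if they have a common extension. -/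
def Compat {P : Type} [Preorder P] (p q : P) : Prop := ∃ r, r ≤ p ∧ r ≤ q

/-- A dense set of conditions. -/
def DenseSet {P : Type} [Preorder P] (D : Set P) : Prop := ∀ p, ∃ d ∈ D, d ≤ p

/-- A filter of conditions. -/
structure IsFilter {P : Type} [Preorder P] (G : Set P) : Prop where
  nonempty : G.Nonempty
  up : ∀ p ∈ G, ∀ q, p ≤ q → q ∈ G
  directed : ∀ p ∈ G, ∀ q ∈ G, ∃ r ∈ G, r ≤ p ∧ r ≤ q

/-- A closed unbounded family of countable subsets of `L`. -/
structure Club {L : Type} (C : Set (Set L)) : Prop where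
  countable : ∀ N ∈ C, N.Countable
  unbounded : ∀ A : Set L, A.Countable → ∃ N ∈ C, A ⊆ N
  closed : ∀ N : ℕ → Set L, Monotone N → (∀ n, N n ∈ C) → (⋃ n, N n) ∈ C

/-- The condition `q` is generic over `N` (a set of conditions and of sets of conditions): for
every dense set `D` belonging to `N`, the set `D ∩ N` is predense below `q`. -/
def GenericOver {P : Type} [Preorder P] (N : Set (P ⊕ Set P)) (q : P) : Prop :=
  ∀ D : Set P, Sum.inr D ∈ N → DenseSet D → ∀ r, r ≤ q → ∃ d ∈ D, Sum.inl d ∈ N ∧ Compat d r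

/-- `P` is proper: there is a closed unbounded family of countable subsets `N` of `P ∪ 𝒫(P)`
such that every condition in `N` has an extension which is generic over `N`. -/
def Proper (P : Type) [Preorder P] : Prop :=
  ∃ C : Set (Set (P ⊕ Set P)), Club C ∧
    ∀ N ∈ C, ∀ p : P, Sum.inl p ∈ N → ∃ q, q ≤ p ∧ GenericOver N q

/-- The Proper Forcing Axiom: for every proper forcing notion and every family of at most `ℵ₁`
dense sets there is a filter meeting all of them. -/
def PFA : Prop :=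
  ∀ (P : Type) [Preorder P] [Nonempty P], Proper P →
    ∀ 𝒟 : Set (Set P), Cardinal.mk 𝒟 ≤ Cardinal.aleph 1 → (∀ D ∈ 𝒟, DenseSet D) →
      ∃ G : Set P, IsFilter G ∧ ∀ D ∈ 𝒟, (G ∩ D).Nonempty

/-- countable forcing notions are proper -/
lemma proper_of_countable (P : Type) [Preorder P] [Countable P] : Proper P := by
  refine ⟨{N | N.Countable ∧ ∀ p : P, Sum.inl p ∈ N}, ⟨fun N hN => hN.1, ?_, ?_⟩, ?_⟩
  · intro A hA
    refine ⟨A ∪ range Sum.inl, ⟨hA.union (countable_range _), fun p => Or.inr ⟨p, rfl⟩⟩,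
      subset_union_left⟩
  · intro N _ hN
    exact ⟨countable_iUnion fun n => (hN n).1, fun p => mem_iUnion.2 ⟨0, (hN 0).2 p⟩⟩
  · rintro N ⟨_, hN⟩ p _
    refine ⟨p, le_rfl, ?_⟩
    intro D _ hD r _
    obtain ⟨d, hd, hdr⟩ := hD r
    exact ⟨d, hd, hN d, d, le_rfl, hdr⟩

/-! ### The forcing notion -/

/-- the point `(x, d)` is compatible with the triple `t = (u, v, e)` -/
def PC (x d : ℝ) (t : ℝ × ℝ × ℝ) : Prop :=
  (t.2.1 < x ∧ t.2.2 ≤ d ∧ d - t.2.2 < (x - t.2.1) / 2) ∨
  (x < t.1 ∧ d ≤ t.2.2 ∧ t.2.2 - d < (t.1 - x) / 2)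

/-- `s` lies to the left of `t`, and the slope between them is admissible -/
def Bef (s t : ℝ × ℝ × ℝ) : Prop :=
  s.2.1 < t.1 ∧ s.2.2 ≤ t.2.2 ∧ t.2.2 - s.2.2 < (t.1 - s.2.1) / 2

/-- finite sets of triples which are conditions -/
structure Valid (p : Set (ℝ × ℝ × ℝ)) : Prop where
  lt : ∀ t ∈ p, t.1 < t.2.1
  bef : ∀ s ∈ p, ∀ t ∈ p, s ≠ t → Bef s t ∨ Bef t s

/-- the key density lemma -/
lemma key {D : Set ℝ} (hD : Dense D) {p : Set (ℝ × ℝ × ℝ)} (hfin : p.Finite) (hne : p.Nonempty)
    (hpD : ∀ t ∈ p, t.2.2 ∈ D) (hv : Valid p) {θ : ℝ} (h0 : 0 ≤ θ) (h1 : θ ≤ 1) (c : ℝ)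
    (hc : ∀ t ∈ p, c < t.1 - θ * t.2.2 ∨ t.2.1 - θ * t.2.2 < c) :
    ∃ d ∈ D, ∀ t ∈ p, PC (c + θ * d) d t := by
  -- the triples to the left and to the right of `c`
  let A : Set (ℝ × ℝ × ℝ) := {t | t ∈ p ∧ t.2.1 - θ * t.2.2 < c}
  let B : Set (ℝ × ℝ × ℝ) := {t | t ∈ p ∧ c < t.1 - θ * t.2.2}
  have hAfin : A.Finite := hfin.subset fun t ht => ht.1
  have hBfin : B.Finite := hfin.subset fun t ht => ht.1
  -- the extension property to the left of the nearest left neighbour
  have left : ∀ a ∈ A, (∀ t ∈ A, t.2.1 ≤ a.2.1) → ∀ x d : ℝ, a.2.1 < x → a.2.2 ≤ d →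
      d - a.2.2 < (x - a.2.1) / 2 → ∀ t ∈ A, PC x d t := by
    intro a ha hmax x d h1 h2 h3 t ht
    by_cases hta : t = a
    · rw [hta]; exact Or.inl ⟨h1, h2, h3⟩
    · have hlta := hv.lt a ha.1
      have hltt := hv.lt t ht.1
      have hm := hmax t ht
      rcases hv.bef t ht.1 a ha.1 hta with h | h
      · obtain ⟨b1, b2, b3⟩ := h
        exact Or.inl ⟨by linarith, by linarith, by linarith⟩
      · obtain ⟨b1, b2, b3⟩ := h
        exfalso; linarith
  have right : ∀ b ∈ B, (∀ t ∈ B, b.1 ≤ t.1) → ∀ x d : ℝ, x < b.1 → d ≤ b.2.2 →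
      b.2.2 - d < (b.1 - x) / 2 → ∀ t ∈ B, PC x d t := by
    intro b hb hmin x d h1 h2 h3 t ht
    by_cases htb : t = b
    · rw [htb]; exact Or.inr ⟨h1, h2, h3⟩
    · have hltb := hv.lt b hb.1
      have hltt := hv.lt t ht.1
      have hm := hmin t ht
      rcases hv.bef t ht.1 b hb.1 htb with h | h
      · obtain ⟨b1, b2, b3⟩ := h
        exfalso; linarith
      · obtain ⟨b1, b2, b3⟩ := h
        exact Or.inr ⟨by linarith, by linarith, by linarith⟩
  have hcover : ∀ t ∈ p, t ∈ A ∨ t ∈ B := by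
    intro t ht
    rcases hc t ht with h | h
    · exact Or.inr ⟨ht, h⟩
    · exact Or.inl ⟨ht, h⟩
  rcases A.eq_empty_or_nonempty with hA | hA
  · -- no left neighbour
    have hB : B.Nonempty := by
      obtain ⟨t, ht⟩ := hne
      rcases hcover t ht with h | h
      · rw [hA] at h; exact absurd h (notMem_empty t)
      · exact ⟨t, h⟩
    obtain ⟨b, hb, hbmin⟩ := hBfin.exists_minimalFor (fun t => t.1) B hB
    have hbmin' : ∀ t ∈ B, b.1 ≤ t.1 := fun t ht => by
      rcases le_total b.1 t.1 with h | h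
      · exact h
      · exact hbmin ht h
    have hb2 : c < b.1 - θ * b.2.2 := hb.2
    refine ⟨b.2.2, hpD b hb.1, fun t ht => ?_⟩
    rcases hcover t ht with h | h
    · rw [hA] at h; exact absurd h (notMem_empty t)
    · exact right b hb hbmin' _ _ (by linarith) le_rfl (by linarith) t h
  · obtain ⟨a, ha, hamax⟩ := hAfin.exists_maximalFor (fun t => t.2.1) A hA
    have hamax' : ∀ t ∈ A, t.2.1 ≤ a.2.1 := fun t ht => by
      rcases le_total t.2.1 a.2.1 with h | h
      · exact h
      · exact hamax ht h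
    have ha2 : a.2.1 - θ * a.2.2 < c := ha.2
    rcases B.eq_empty_or_nonempty with hB | hB
    · refine ⟨a.2.2, hpD a ha.1, fun t ht => ?_⟩
      rcases hcover t ht with h | h
      · exact left a ha hamax' _ _ (by linarith) le_rfl (by linarith) t h
      · rw [hB] at h; exact absurd h (notMem_empty t)
    · obtain ⟨b, hb, hbmin⟩ := hBfin.exists_minimalFor (fun t => t.1) B hB
      have hbmin' : ∀ t ∈ B, b.1 ≤ t.1 := fun t ht => by
        rcases le_total b.1 t.1 with h | h
        · exact h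
        · exact hbmin ht h
      have hb2 : c < b.1 - θ * b.2.2 := hb.2
      have hlta := hv.lt a ha.1
      have hltb := hv.lt b hb.1
      have hab : a ≠ b := by
        intro h
        rw [h] at ha2
        linarith
      -- `a` lies to the left of `b`
      have hbef : Bef a b := by
        rcases hv.bef a ha.1 b hb.1 hab with h | h
        · exact h
        · obtain ⟨b1, b2, b3⟩ := h
          exfalso
          nlinarith
      obtain ⟨b1, b2, b3⟩ := hbef
      suffices h : ∃ d ∈ D, a.2.2 ≤ d ∧ d ≤ b.2.2 ∧ d - a.2.2 < (c + θ * d - a.2.1) / 2 ∧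
          b.2.2 - d < (b.1 - (c + θ * d)) / 2 by
        obtain ⟨d, hd, h2, h3, h4, h5⟩ := h
        have h6 : θ * a.2.2 ≤ θ * d := mul_le_mul_of_nonneg_left h2 h0
        have h7 : θ * d ≤ θ * b.2.2 := mul_le_mul_of_nonneg_left h3 h0
        refine ⟨d, hd, fun t ht => ?_⟩
        rcases hcover t ht with h | h
        · exact left a ha hamax' _ _ (by linarith) h2 h4 t h
        · exact right b hb hbmin' _ _ (by linarith) h3 h5 t h
      rcases b2.eq_or_lt with heq | hlt
      · refine ⟨a.2.2, hpD a ha.1, le_rfl, b2, by linarith, ?_⟩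
        rw [← heq] at hb2 ⊢
        linarith
      · -- choose `d` in a nonempty open interval
        have hκ : 0 < 1 - θ / 2 := by linarith
        have e1 : max a.2.2 ((b.2.2 - (b.1 - c) / 2) / (1 - θ / 2)) <
            min b.2.2 ((a.2.2 + (c - a.2.1) / 2) / (1 - θ / 2)) := by
          rw [max_lt_iff, lt_min_iff, lt_min_iff]
          refine ⟨⟨hlt, ?_⟩, ?_, ?_⟩
          · rw [lt_div_iff₀ hκ]; linarith
          · rw [div_lt_iff₀ hκ]; linarith
          · apply div_lt_div_of_pos_right _ hκ; linarith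
        obtain ⟨d, hd, hd1, hd2⟩ := hD.exists_between e1
        rw [max_lt_iff] at hd1
        rw [lt_min_iff] at hd2
        obtain ⟨f1, f2⟩ := hd1
        obtain ⟨f3, f4⟩ := hd2
        rw [div_lt_iff₀ hκ] at f2
        rw [lt_div_iff₀ hκ] at f4
        exact ⟨d, hd, f1.le, f3.le, by linarith, by linarith⟩

/-- The conditions: finite valid sets of triples in `E × E × D` containing `p₀`. -/
structure Cond (D E : Set ℝ) (p₀ : Finset (ℝ × ℝ × ℝ)) : Type where
  s : Finset (ℝ × ℝ × ℝ)
  valid : Valid (s : Set (ℝ × ℝ × ℝ))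
  mem : ∀ t ∈ s, t.1 ∈ E ∧ t.2.1 ∈ E ∧ t.2.2 ∈ D
  base : p₀ ⊆ s

instance (D E : Set ℝ) (p₀ : Finset (ℝ × ℝ × ℝ)) : Preorder (Cond D E p₀) where
  le p q := q.s ⊆ p.s
  le_refl p := Finset.Subset.refl _
  le_trans _ _ _ h1 h2 := Finset.Subset.trans h2 h1

lemma Cond.countable {D E : Set ℝ} (hD : D.Countable) (hE : E.Countable)
    (p₀ : Finset (ℝ × ℝ × ℝ)) : Countable (Cond D E p₀) := by
  have h1 : (E ×ˢ (E ×ˢ D)).Countable := hE.prod (hE.prod hD)
  have h2 := Set.countable_ofPred_finite_subset h1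
  let f : Cond D E p₀ → {t : Set (ℝ × ℝ × ℝ) | t.Finite ∧ t ⊆ E ×ˢ (E ×ˢ D)} := fun p =>
    ⟨(p.s : Set (ℝ × ℝ × ℝ)), p.s.finite_toSet, fun t ht => p.mem t ht⟩
  have hf : Function.Injective f := by
    rintro ⟨s, _, _, _⟩ ⟨s', _, _, _⟩ h
    have h3 : (s : Set (ℝ × ℝ × ℝ)) = s' := congrArg Subtype.val h
    have h4 : s = s' := Finset.coe_injective h3
    subst h4
    rfl
  have : Countable {t : Set (ℝ × ℝ × ℝ) | t.Finite ∧ t ⊆ E ×ˢ (E ×ˢ D)} := h2.to_subtype
  exact hf.countable

/-- the dense sets -/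
def DS (D E : Set ℝ) (p₀ : Finset (ℝ × ℝ × ℝ)) (θ c : ℝ) : Set (Cond D E p₀) :=
  {p | ∃ t ∈ p.s, t.1 < c + θ * t.2.2 ∧ c + θ * t.2.2 < t.2.1}

lemma dense_DS {D E : Set ℝ} (hD : Dense D) (hE : Dense E) (p₀ : Finset (ℝ × ℝ × ℝ))
    (hp₀ : p₀.Nonempty) {θ : ℝ} (h0 : 0 ≤ θ) (h1 : θ ≤ 1) (c : ℝ)
    (hc : ∀ d ∈ D, c + θ * d ∉ E) : DenseSet (DS D E p₀ θ c) := by
  classical
  intro p
  by_cases hcase : ∃ t ∈ p.s, t.1 < c + θ * t.2.2 ∧ c + θ * t.2.2 < t.2.1
  · exact ⟨p, hcase, le_rfl⟩
  push Not at hcase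
  have hside : ∀ t ∈ (p.s : Set (ℝ × ℝ × ℝ)),
      c < t.1 - θ * t.2.2 ∨ t.2.1 - θ * t.2.2 < c := by
    intro t ht
    obtain ⟨m1, m2, m3⟩ := p.mem t ht
    have hcE := hc _ m3
    by_cases h : t.1 < c + θ * t.2.2
    · right
      have := hcase t ht h
      rcases this.eq_or_lt with h' | h'
      · exact absurd (h' ▸ m2) hcE
      · linarith
    · left
      rcases (not_lt.1 h).eq_or_lt with h' | h'
      · exact absurd (h'.symm ▸ m1) hcE
      · linarith
  obtain ⟨d, hd, hPC⟩ := key hD p.s.finite_toSet (hp₀.mono p.base) (fun t ht => (p.mem t ht).2.2)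
    p.valid h0 h1 c hside
  set x := c + θ * d with hx
  have hev : ∀ᶠ a in 𝓝 x, ∀ t ∈ p.s,
      ((t.2.1 < x ∧ d - t.2.2 < (x - t.2.1) / 2) → (t.2.1 < a ∧ d - t.2.2 < (a - t.2.1) / 2)) ∧
      ((x < t.1 ∧ t.2.2 - d < (t.1 - x) / 2) → (a < t.1 ∧ t.2.2 - d < (t.1 - a) / 2)) := by
    rw [Filter.eventually_all_finset]
    intro t _
    apply Filter.Eventually.and
    · by_cases h : t.2.1 < x ∧ d - t.2.2 < (x - t.2.1) / 2
      · have c1 : ∀ᶠ a in 𝓝 x, t.2.1 < a := lt_mem_nhds h.1
        have c2 : ∀ᶠ a in 𝓝 x, d - t.2.2 < (a - t.2.1) / 2 :=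
          ContinuousAt.eventually_lt (by fun_prop) (by fun_prop) h.2
        filter_upwards [c1, c2] with a h1 h2 _ using ⟨h1, h2⟩
      · exact Filter.Eventually.of_forall fun a h' => absurd h' h
    · by_cases h : x < t.1 ∧ t.2.2 - d < (t.1 - x) / 2
      · have c1 : ∀ᶠ a in 𝓝 x, a < t.1 := gt_mem_nhds h.1
        have c2 : ∀ᶠ a in 𝓝 x, t.2.2 - d < (t.1 - a) / 2 :=
          ContinuousAt.eventually_lt (by fun_prop) (by fun_prop) h.2
        filter_upwards [c1, c2] with a h1 h2 _ using ⟨h1, h2⟩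
      · exact Filter.Eventually.of_forall fun a h' => absurd h' h
  obtain ⟨ε, hε, hball⟩ := Metric.eventually_nhds_iff.1 hev
  obtain ⟨a, haE, ha1, ha2⟩ := hE.exists_between (show x - ε < x by linarith)
  obtain ⟨b, hbE, hb1, hb2⟩ := hE.exists_between (show x < x + ε by linarith)
  have hA := hball (y := a) (by rw [Real.dist_eq, abs_lt]; constructor <;> linarith)
  have hB := hball (y := b) (by rw [Real.dist_eq, abs_lt]; constructor <;> linarith)
  have hnew : ∀ t ∈ p.s, Bef t (a, b, d) ∨ Bef (a, b, d) t := by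
    intro t ht
    rcases hPC t ht with ⟨g1, g2, g3⟩ | ⟨g1, g2, g3⟩
    · left
      obtain ⟨k1, k2⟩ := (hA t ht).1 ⟨g1, g3⟩
      exact ⟨k1, g2, k2⟩
    · right
      obtain ⟨k1, k2⟩ := (hB t ht).2 ⟨g1, g3⟩
      exact ⟨k1, g2, k2⟩
  let q : Cond D E p₀ :=
    { s := insert (a, b, d) p.s
      valid := by
        constructor
        · intro t ht
          simp only [Finset.coe_insert, Set.mem_insert_iff, Finset.mem_coe] at ht
          rcases ht with rfl | ht
          · show a < b
            linarith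
          · exact p.valid.lt t ht
        · intro s hs t ht hst
          simp only [Finset.coe_insert, Set.mem_insert_iff, Finset.mem_coe] at hs ht
          rcases hs with rfl | hs
          · rcases ht with rfl | ht
            · exact absurd rfl hst
            · exact (hnew t ht).symm
          · rcases ht with rfl | ht
            · exact hnew s hs
            · exact p.valid.bef s hs t ht hst
      mem := by
        intro t ht
        rcases Finset.mem_insert.1 ht with rfl | ht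
        · exact ⟨haE, hbE, hd⟩
        · exact p.mem t ht
      base := p.base.trans (Finset.subset_insert _ _) }
  refine ⟨q, ⟨(a, b, d), Finset.mem_insert_self _ _, ha2, hb1⟩, ?_⟩
  exact Finset.subset_insert _ _

/-- the real line is not plastic -/
lemma not_plastic_top (X : AddSubgroup ℝ) (hX : ∀ x : ℝ, x ∈ X) : ¬ Plastic X := by
  intro hp
  let f : X → X := fun x => ⟨x / 2, hX _⟩
  have hbij : Function.Bijective f := by
    constructor
    · intro x y h
      have h1 : (x : ℝ) / 2 = y / 2 := congrArg Subtype.val h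
      exact Subtype.ext (by linarith)
    · intro y
      exact ⟨⟨2 * y, hX _⟩, Subtype.ext (by simp [f])⟩
  have hd : ∀ x y, dist (f x) (f y) = dist x y / 2 := by
    intro x y
    rw [Subtype.dist_eq, Subtype.dist_eq, Real.dist_eq, Real.dist_eq]
    simp only [f]
    rw [← sub_div, abs_div, abs_of_pos (by norm_num : (0 : ℝ) < 2)]
  have hiso := hp f hbij (fun x y => by rw [hd]; linarith [dist_nonneg (x := x) (y := y)])
  have h1 := hiso.dist_eq ⟨0, hX _⟩ ⟨1, hX _⟩
  rw [hd, Subtype.dist_eq, Real.dist_eq] at h1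
  norm_num at h1

/-- **Main theorem**: under PFA no `ℵ₁`-dense additive subgroup of the real line is plastic. -/
theorem result : PFA → ∀ X : AddSubgroup ℝ, AlephOneDense (X : Set ℝ) → ¬ Plastic X := by
  classical
  intro hPFA X hX hplastic
  by_cases htop : ∀ x : ℝ, x ∈ X
  · exact not_plastic_top X htop hplastic
  push Not at htop
  obtain ⟨e₀, he₀⟩ := htop
  -- `X` is dense and has cardinality `ℵ₁`
  have hXdense : Dense (X : Set ℝ) := by
    rw [dense_iff_inter_open]
    intro U hU hne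
    have h := hX U hU hne
    have h2 : Cardinal.mk (((X : Set ℝ) ∩ U : Set ℝ)) ≠ 0 := by
      rw [h]; exact (Cardinal.aleph_pos 1).ne'
    rw [Cardinal.mk_ne_zero_iff] at h2
    obtain ⟨x, hx1, hx2⟩ := h2
    exact ⟨x, hx2, hx1⟩
  have hXcard : Cardinal.mk X = Cardinal.aleph 1 := by
    have h := hX univ isOpen_univ univ_nonempty
    rw [inter_univ] at h
    exact h
  obtain ⟨D, hDX, hDc, hDd⟩ := hXdense.exists_countable_dense_subset
  -- the set of endpoints
  let E : Set ℝ := (fun d => e₀ + d) '' D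
  have hEc : E.Countable := hDc.image _
  have hEd : Dense E :=
    (Homeomorph.addLeft e₀).surjective.denseRange.dense_image (Homeomorph.addLeft e₀).continuous hDd
  have hEX : ∀ x ∈ X, x ∉ E := by
    rintro x hx ⟨d, hd, rfl⟩
    apply he₀
    have := X.sub_mem hx (hDX hd)
    simpa using this
  -- the first condition
  obtain ⟨d₀, hd₀, hd₀1, hd₀2⟩ := hDd.exists_between (show (0 : ℝ) < 1 by norm_num)
  obtain ⟨d₁, hd₁, hd₁1, hd₁2⟩ := hDd.exists_between hd₀2
  obtain ⟨u₀, hu₀, hu₀1, hu₀2⟩ := hEd.exists_between (show (-2 : ℝ) < -1 by norm_num)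
  obtain ⟨v₀, hv₀, hv₀1, hv₀2⟩ := hEd.exists_between (show (-1 : ℝ) < 0 by norm_num)
  obtain ⟨u₁, hu₁, hu₁1, hu₁2⟩ := hEd.exists_between (show (2 : ℝ) < 3 by norm_num)
  obtain ⟨v₁, hv₁, hv₁1, hv₁2⟩ := hEd.exists_between (show (3 : ℝ) < 4 by norm_num)
  let t₀ : ℝ × ℝ × ℝ := (u₀, v₀, d₀)
  let t₁ : ℝ × ℝ × ℝ := (u₁, v₁, d₁)
  have hbef : Bef t₀ t₁ := ⟨by simp only [t₀, t₁]; linarith, by simp only [t₀, t₁]; linarith,
    by simp only [t₀, t₁]; linarith⟩
  let p₀ : Finset (ℝ × ℝ × ℝ) := {t₀, t₁}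
  have hp₀ : p₀.Nonempty := ⟨t₀, by simp [p₀]⟩
  let c₀ : Cond D E p₀ :=
    { s := p₀
      valid := by
        constructor
        · intro t ht
          simp only [p₀, Finset.coe_insert, Finset.coe_singleton, mem_insert_iff,
            mem_singleton_iff] at ht
          rcases ht with rfl | rfl
          · show u₀ < v₀
            linarith
          · show u₁ < v₁
            linarith
        · intro s hs t ht hst
          simp only [p₀, Finset.coe_insert, Finset.coe_singleton, mem_insert_iff,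
            mem_singleton_iff] at hs ht
          rcases hs with rfl | rfl <;> rcases ht with rfl | rfl
          · exact absurd rfl hst
          · exact Or.inl hbef
          · exact Or.inr hbef
          · exact absurd rfl hst
      mem := by
        intro t ht
        simp only [p₀, Finset.mem_insert, Finset.mem_singleton] at ht
        rcases ht with rfl | rfl
        · exact ⟨hu₀, hv₀, hd₀⟩
        · exact ⟨hu₁, hv₁, hd₁⟩
      base := Finset.Subset.refl _ }
  have hPc : Countable (Cond D E p₀) := Cond.countable hDc hEc p₀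
  have hPn : Nonempty (Cond D E p₀) := ⟨c₀⟩
  -- the dense sets
  let th : Bool → ℝ := fun b => if b then 1 else 0
  let 𝒟 : Set (Set (Cond D E p₀)) := range fun z : X × Bool => DS D E p₀ (th z.2) (z.1 : ℝ)
  have h𝒟card : Cardinal.mk 𝒟 ≤ Cardinal.aleph 1 := by
    refine Cardinal.mk_range_le.trans ?_
    rw [Cardinal.mk_prod, hXcard]
    have h1 : Cardinal.aleph0 ≤ Cardinal.aleph 1 := Cardinal.aleph0_le_aleph 1
    simpa using Cardinal.mul_le_of_le (c := Cardinal.aleph 1) h1 le_rfl
      ((Cardinal.natCast_le_aleph0 (n := 2)).trans h1)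
  have h𝒟dense : ∀ S ∈ 𝒟, DenseSet S := by
    rintro S ⟨⟨x, b⟩, rfl⟩
    have hx : (x : ℝ) ∈ X := x.2
    cases b with
    | false =>
      simp only [th]
      apply dense_DS hDd hEd p₀ hp₀ (by norm_num) (by norm_num)
      intro d _
      simpa using hEX _ hx
    | true =>
      simp only [th]
      apply dense_DS hDd hEd p₀ hp₀ (by norm_num) (by norm_num)
      intro d hd
      simpa using hEX _ (X.add_mem hx (hDX hd))
  obtain ⟨G, hG, hmeet⟩ := hPFA (Cond D E p₀) (proper_of_countable _) 𝒟 h𝒟card h𝒟dense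
  -- the generic set of triples
  let W : Set (ℝ × ℝ × ℝ) := {t | ∃ p ∈ G, t ∈ p.s}
  have hWD : ∀ t ∈ W, t.2.2 ∈ X := by
    rintro t ⟨p, _, ht⟩
    exact hDX (p.mem t ht).2.2
  have hWpair : ∀ s ∈ W, ∀ t ∈ W, s ≠ t → Bef s t ∨ Bef t s := by
    rintro s ⟨p, hp, hs⟩ t ⟨q, hq, ht⟩ hst
    obtain ⟨r, _, hrp, hrq⟩ := hG.directed p hp q hq
    exact r.valid.bef s (hrp hs) t (hrq ht) hst
  have hWlt : ∀ t ∈ W, t.1 < t.2.1 := by
    rintro t ⟨p, _, ht⟩
    exact p.valid.lt t ht
  have hWbase : ∀ t ∈ p₀, t ∈ W := by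
    intro t ht
    obtain ⟨p, hp⟩ := hG.nonempty
    exact ⟨p, hp, p.base ht⟩
  have hdom : ∀ x : X, ∃ t ∈ W, t.1 < (x : ℝ) ∧ (x : ℝ) < t.2.1 := by
    intro x
    obtain ⟨p, hp, t, ht, h1, h2⟩ := hmeet _ ⟨(x, false), rfl⟩
    simp only [th] at h1 h2
    exact ⟨t, ⟨p, hp, ht⟩, by simpa using h1, by simpa using h2⟩
  have hran : ∀ y : X, ∃ t ∈ W, t.1 < (y : ℝ) + t.2.2 ∧ (y : ℝ) + t.2.2 < t.2.1 := by
    intro y
    obtain ⟨p, hp, t, ht, h1, h2⟩ := hmeet _ ⟨(y, true), rfl⟩
    simp only [th] at h1 h2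
    exact ⟨t, ⟨p, hp, ht⟩, by simpa using h1, by simpa using h2⟩
  -- uniqueness of the triple around a point
  have huniq : ∀ x : ℝ, ∀ s ∈ W, ∀ t ∈ W, s.1 < x → x < s.2.1 → t.1 < x → x < t.2.1 → s = t := by
    intro x s hs t ht h1 h2 h3 h4
    by_contra hst
    rcases hWpair s hs t ht hst with ⟨h, _, _⟩ | ⟨h, _, _⟩ <;> linarith
  choose T hTW hT1 hT2 using hdom
  let F : X → X := fun x => x - ⟨(T x).2.2, hWD _ (hTW x)⟩
  have hFval : ∀ x : X, (F x : ℝ) = x - (T x).2.2 := fun x => rfl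
  have hmono : ∀ x y : X, (x : ℝ) < y →
      ((y : ℝ) - x) / 2 ≤ (F y : ℝ) - F x ∧ (F y : ℝ) - F x ≤ y - x := by
    intro x y hxy
    rw [hFval, hFval]
    by_cases hst : T x = T y
    · rw [hst]; constructor <;> linarith
    · have a1 := hT1 x
      have a2 := hT2 x
      have a3 := hT1 y
      have a4 := hT2 y
      rcases hWpair _ (hTW x) _ (hTW y) hst with ⟨h1, h2, h3⟩ | ⟨h1, h2, h3⟩
      · constructor <;> linarith
      · exfalso; linarith
  have hne : ∀ x y, dist (F x) (F y) ≤ dist x y := by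
    have aux : ∀ x y : X, (x : ℝ) < y → dist (F x) (F y) ≤ dist x y := by
      intro x y hxy
      obtain ⟨h1, h2⟩ := hmono x y hxy
      rw [Subtype.dist_eq, Subtype.dist_eq, dist_comm, dist_comm (x : ℝ), Real.dist_eq,
        Real.dist_eq, abs_of_nonneg (by linarith), abs_of_nonneg (by linarith)]
      exact h2
    intro x y
    rcases lt_trichotomy (x : ℝ) y with h | h | h
    · exact aux x y h
    · rw [Subtype.ext h]; simp
    · rw [dist_comm, dist_comm x]; exact aux y x h
  have hbij : Function.Bijective F := by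
    constructor
    · intro x y hxy
      rcases lt_trichotomy (x : ℝ) y with h | h | h
      · have := (hmono x y h).1
        rw [hxy] at this
        exfalso; linarith
      · exact Subtype.ext h
      · have := (hmono y x h).1
        rw [hxy] at this
        exfalso; linarith
    · intro y
      obtain ⟨t, ht, h1, h2⟩ := hran y
      let x : X := y + ⟨t.2.2, hWD t ht⟩
      have hx : (x : ℝ) = y + t.2.2 := rfl
      refine ⟨x, ?_⟩
      have hTx : T x = t := huniq x _ (hTW x) _ ht (hT1 x) (hT2 x) (by rw [hx]; exact h1)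
        (by rw [hx]; exact h2)
      apply Subtype.ext
      rw [hFval, hTx, hx]
      ring
  have hiso := hplastic F hbij hne
  -- two points witnessing that `F` is not an isometry
  obtain ⟨x, hxX, hx1, hx2⟩ := hXdense.exists_between (show u₀ < v₀ by linarith)
  obtain ⟨y, hyX, hy1, hy2⟩ := hXdense.exists_between (show u₁ < v₁ by linarith)
  have ht₀ : t₀ ∈ W := hWbase _ (by simp [p₀])
  have ht₁ : t₁ ∈ W := hWbase _ (by simp [p₀])
  have e1 : T ⟨x, hxX⟩ = t₀ := huniq x _ (hTW _) _ ht₀ (hT1 ⟨x, hxX⟩) (hT2 ⟨x, hxX⟩) hx1 hx2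
  have e2 : T ⟨y, hyX⟩ = t₁ := huniq y _ (hTW _) _ ht₁ (hT1 ⟨y, hyX⟩) (hT2 ⟨y, hyX⟩) hy1 hy2
  have h1 := hiso.dist_eq ⟨x, hxX⟩ ⟨y, hyX⟩
  rw [Subtype.dist_eq, Subtype.dist_eq, hFval, hFval, e1, e2, dist_comm, dist_comm x,
    Real.dist_eq, Real.dist_eq] at h1
  simp only [t₀, t₁] at h1
  rw [abs_of_nonneg (by linarith), abs_of_nonneg (by linarith)] at h1
  linarith

end Pool.Agent.Results.MP_d907e7_lc.NoPlasticSubgroupPFA
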