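import Mathlib

/-!
# A plastic `ℵ₁`-dense set of reals exists in ZFC

Idea of the proof.  Digit sequences `x` with `x j ≤ j` are embedded into the real line by
`io x = ∑ x j / (4 ^ j * j!)`.  A self-map of digit sequences whose `j`-th output digit depends
only on the input digits below `j` becomes a non-expansive map of the reals.  Countably many
`thin` sequences can be coded by one thin sequence, in such a way that each of them is recovered
by one of countably many fixed maps of this kind.  By recursion of length `ω₁` we get reals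
`y a` (`a < ω₁`), translated by rationals into prescribed rational intervals, such that

* for `b < a` the number `y b` is obtained from `y a` by one of countably many fixed
  non-expansive maps;
* `y a` is never of the form `y b + (y c - y e)` with `b, c, e < a`.

Let `f` be a non-expansive bijection of `X = {y a}`, and `f (y a) = y (p a)`.  If uncountably
many `a` satisfied `a < p a`, two of them would be decoded by the same map, which would force
`|y (p a) - y (p b)| = |y a - y b|`, contradicting the second property.  Hence `p a ≤ a` for all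
but countably many `a`, and then `p a = a` for all but countably many `a`.  So `f` is the identity
on a dense set.
-/

open Set Filter Topology

namespace Pool.Agent.Results.MP_d907e7_lc.PlasticAlephOneDense

/-- A metric space is plastic if every non-expansive bijection of the space onto itself is an
isometry. -/
def Plastic (M : Type*) [MetricSpace M] : Prop :=
  ∀ f : M → M, Function.Bijective f → (∀ x y, dist (f x) (f y) ≤ dist x y) → Isometry f

/-- A set of reals is `ℵ₁`-dense if it meets every nonempty open set of reals in exactly `ℵ₁`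
points. -/
def AlephOneDense (X : Set ℝ) : Prop :=
  ∀ U : Set ℝ, IsOpen U → U.Nonempty → Cardinal.mk (X ∩ U : Set ℝ) = Cardinal.aleph 1

/-! ### Digit sequences and their embedding into the real line -/


/-- the scale of the `j`-th digit -/
noncomputable def dl (j : ℕ) : ℝ := 1 / (4 ^ j * (j.factorial : ℝ))

lemma dl_pos (j : ℕ) : 0 < dl j := by unfold dl; positivity

lemma dl_succ (j : ℕ) : ((j + 1 : ℕ) : ℝ) * dl (j + 1) = dl j / 4 := by
  unfold dl
  have h1 : ((j.factorial : ℕ) : ℝ) ≠ 0 := by exact_mod_cast j.factorial_ne_zero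
  have h2 : ((j + 1 : ℕ) : ℝ) ≠ 0 := by positivity
  rw [Nat.factorial_succ]
  push_cast at *
  field_simp
  ring

lemma dl_succ_le (j : ℕ) : dl (j + 1) ≤ dl j / 4 := by
  have h := dl_succ j
  have h1 : (1 : ℝ) ≤ ((j + 1 : ℕ) : ℝ) := by push_cast; linarith [(Nat.cast_nonneg j : (0:ℝ) ≤ j)]
  nlinarith [dl_pos (j + 1)]

lemma dl_add_le (j k : ℕ) : dl (j + k) ≤ dl j * (1 / 4) ^ k := by
  induction k with
  | zero => simp
  | succ k ih =>
    have := dl_succ_le (j + k)
    rw [← add_assoc, pow_succ]
    nlinarith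

/-- the term bound used for the tails -/
lemma term_bound (d : ℕ → ℝ) (hd : ∀ i, |d i| ≤ i) (j k : ℕ) :
    |d (j + k + 1) * dl (j + k + 1)| ≤ dl j * (1 / 4) ^ (k + 1) := by
  rw [abs_mul, abs_of_pos (dl_pos _)]
  calc |d (j + k + 1)| * dl (j + k + 1) ≤ ((j + k + 1 : ℕ) : ℝ) * dl (j + k + 1) := by
        exact mul_le_mul_of_nonneg_right (hd _) (dl_pos _).le
    _ = dl (j + k) / 4 := dl_succ (j + k)
    _ ≤ (dl j * (1 / 4) ^ k) / 4 := by
        have := dl_add_le j k
        linarith
    _ = dl j * (1 / 4) ^ (k + 1) := by ring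

lemma summable_digits (d : ℕ → ℝ) (hd : ∀ i, |d i| ≤ i) : Summable fun i => d i * dl i := by
  rw [← summable_nat_add_iff 1]
  apply Summable.of_norm_bounded (g := fun k => dl 0 * (1 / 4 : ℝ) ^ (k + 1))
  · apply Summable.mul_left
    simpa using (summable_nat_add_iff 1).2 (summable_geometric_of_lt_one (by norm_num) (by norm_num : (1/4:ℝ) < 1))
  · intro k
    have := term_bound d hd 0 k
    simpa using this

lemma hasSum_geo : HasSum (fun k : ℕ => (1 / 4 : ℝ) ^ (k + 1)) (1 / 3) := by
  have h := (hasSum_geometric_of_lt_one (by norm_num) (by norm_num : (1/4:ℝ) < 1)).mul_left (1/4 : ℝ)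
  have e1 : (fun k : ℕ => (1 / 4 : ℝ) ^ (k + 1)) = fun i : ℕ => (1 / 4 : ℝ) * (1 / 4) ^ i := by
    funext k; ring
  have e2 : (1 / 3 : ℝ) = 1 / 4 * (1 - 1 / 4)⁻¹ := by norm_num
  rw [e1, e2]
  exact h

lemma tail_le (d : ℕ → ℝ) (hd : ∀ i, |d i| ≤ i) (j : ℕ) (h0 : ∀ i ≤ j, d i = 0) :
    |∑' i, d i * dl i| ≤ dl j / 3 := by
  have hs := summable_digits d hd
  have h1 : ∑' i, d i * dl i = ∑' k, d (k + (j + 1)) * dl (k + (j + 1)) := by
    rw [← hs.sum_add_tsum_nat_add (j + 1)]
    rw [Finset.sum_eq_zero, zero_add]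
    intro i hi
    rw [h0 i (by simpa [Nat.lt_succ_iff] using Finset.mem_range.1 hi), zero_mul]
  rw [h1]
  have h2 : HasSum (fun k : ℕ => dl j * (1 / 4 : ℝ) ^ (k + 1)) (dl j * (1 / 3)) :=
    hasSum_geo.mul_left _
  have h3 : ‖∑' k, d (k + (j + 1)) * dl (k + (j + 1))‖ ≤ dl j * (1 / 3) := by
    apply tsum_of_norm_bounded h2
    intro k
    have := term_bound d hd j k
    have e : k + (j + 1) = j + k + 1 := by ring
    rw [e]
    simpa using this
  rw [Real.norm_eq_abs] at h3
  linarith

lemma gap_ge (d : ℕ → ℝ) (hd : ∀ i, |d i| ≤ i) (j : ℕ) (h0 : ∀ i < j, d i = 0)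
    (hj : 1 ≤ |d j|) : 2 * dl j / 3 ≤ |∑' i, d i * dl i| := by
  have hs := summable_digits d hd
  -- remove the j-th term
  let e : ℕ → ℝ := fun i => if i = j then 0 else d i
  have he : ∀ i, |e i| ≤ i := by
    intro i
    by_cases h : i = j
    · simp [e, h]
    · simpa [e, h] using hd i
  have he0 : ∀ i ≤ j, e i = 0 := by
    intro i hi
    by_cases h : i = j
    · simp [e, h]
    · simpa [e, h] using h0 i (lt_of_le_of_ne hi h)
  have h1 : ∑' i, d i * dl i = d j * dl j + ∑' i, e i * dl i := by
    rw [hs.tsum_eq_add_tsum_ite j]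
    congr 1
    apply tsum_congr
    intro i
    by_cases h : i = j
    · simp [e, h]
    · simp [e, h]
  have h2 := tail_le e he j he0
  rw [h1]
  have h3 : dl j ≤ |d j * dl j| := by
    rw [abs_mul, abs_of_pos (dl_pos j)]
    nlinarith [dl_pos j]
  have h4 : |d j * dl j| - |∑' i, e i * dl i| ≤ |d j * dl j + ∑' i, e i * dl i| := by
    have := abs_sub_abs_le_abs_sub (d j * dl j) (-(∑' i, e i * dl i))
    simpa [sub_neg_eq_add] using this
  linarith

/-- digit sequences -/
def Bdd (x : ℕ → ℕ) : Prop := ∀ j, x j ≤ j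

/-- the embedding of digit sequences into the reals -/
noncomputable def io (x : ℕ → ℕ) : ℝ := ∑' i, (x i : ℝ) * dl i

lemma Bdd.cast_le {x : ℕ → ℕ} (hx : Bdd x) (i : ℕ) : |(x i : ℝ)| ≤ i := by
  rw [Nat.abs_cast]; exact_mod_cast hx i

lemma Bdd.diff_le {x y : ℕ → ℕ} (hx : Bdd x) (hy : Bdd y) (i : ℕ) : |(x i : ℝ) - y i| ≤ i := by
  have h1 : (x i : ℝ) ≤ i := by exact_mod_cast hx i
  have h2 : (y i : ℝ) ≤ i := by exact_mod_cast hy i
  have h3 : (0 : ℝ) ≤ x i := by positivity
  have h4 : (0 : ℝ) ≤ y i := by positivity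
  rw [abs_le]; constructor <;> linarith

lemma io_sub {x y : ℕ → ℕ} (hx : Bdd x) (hy : Bdd y) :
    io x - io y = ∑' i, ((x i : ℝ) - y i) * dl i := by
  unfold io
  rw [← (summable_digits (fun i => (x i : ℝ)) (fun i => hx.cast_le i)).tsum_sub
    (summable_digits (fun i => (y i : ℝ)) (fun i => hy.cast_le i))]
  apply tsum_congr
  intro i; ring

lemma io_close {x y : ℕ → ℕ} (hx : Bdd x) (hy : Bdd y) (j : ℕ) (h : ∀ i ≤ j, x i = y i) :
    |io x - io y| ≤ dl j / 3 := by
  rw [io_sub hx hy]
  apply tail_le _ (hx.diff_le hy)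
  intro i hi
  simp [h i hi]

lemma io_far {x y : ℕ → ℕ} (hx : Bdd x) (hy : Bdd y) (j : ℕ) (h : ∀ i < j, x i = y i)
    (hj : x j ≠ y j) : 2 * dl j / 3 ≤ |io x - io y| := by
  rw [io_sub hx hy]
  apply gap_ge _ (hx.diff_le hy)
  · intro i hi
    simp [h i hi]
  · have : (1 : ℤ) ≤ |(x j : ℤ) - y j| := by
      apply Int.one_le_abs
      intro h0
      exact hj (by exact_mod_cast sub_eq_zero.1 h0)
    exact_mod_cast this

lemma io_injOn {x y : ℕ → ℕ} (hx : Bdd x) (hy : Bdd y) (h : io x = io y) : x = y := by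
  by_contra hne
  have hex : ∃ j, x j ≠ y j := by
    by_contra hcon
    push Not at hcon
    exact hne (funext hcon)
  classical
  have hj := Nat.find_spec hex
  have hlt : ∀ i < Nat.find hex, x i = y i := fun i hi => by
    by_contra hc; exact Nat.find_min hex hi hc
  have := io_far hx hy _ hlt hj
  rw [h, sub_self, abs_zero] at this
  have := dl_pos (Nat.find hex)
  linarith

/-- a map on digit sequences whose `j`-th output digit depends only on input digits below `j` -/
lemma io_contract {G : (ℕ → ℕ) → (ℕ → ℕ)} (hG : ∀ x, Bdd (G x))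
    (hloc : ∀ x y j, (∀ i < j, x i = y i) → ∀ i ≤ j, G x i = G y i)
    {x y : ℕ → ℕ} (hx : Bdd x) (hy : Bdd y) : |io (G x) - io (G y)| ≤ |io x - io y| := by
  by_cases hne : x = y
  · simp [hne]
  have hex : ∃ j, x j ≠ y j := by
    by_contra hcon
    push Not at hcon
    exact hne (funext hcon)
  classical
  have hj := Nat.find_spec hex
  have hlt : ∀ i < Nat.find hex, x i = y i := fun i hi => by
    by_contra hc; exact Nat.find_min hex hi hc
  have h1 := io_far hx hy _ hlt hj
  have h2 := io_close (hG x) (hG y) (Nat.find hex) (hloc x y _ hlt)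
  have := dl_pos (Nat.find hex)
  linarith


/-! ### Coding countably many thin digit sequences by one -/



/-- code of a finite list of natural numbers -/
def cod : List ℕ → ℕ
  | [] => 0
  | a :: l => Nat.pair a (cod l)

/-- the `n`-th entry of the list with code `c` -/
def ent (n c : ℕ) : ℕ := (Nat.unpair ((fun c => (Nat.unpair c).2)^[n] c)).1

lemma ent_zero_cons (a : ℕ) (l : List ℕ) : ent 0 (cod (a :: l)) = a := by
  simp [ent, cod]

lemma ent_succ_cons (n a : ℕ) (l : List ℕ) : ent (n + 1) (cod (a :: l)) = ent n (cod l) := by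
  simp [ent, cod, Function.iterate_succ_apply]

lemma ent_cod (l : List ℕ) : ∀ (n : ℕ) (h : n < l.length), ent n (cod l) = l[n] := by
  induction l with
  | nil => intro n h; simp at h
  | cons a l ih =>
    intro n h
    cases n with
    | zero => simpa using ent_zero_cons a l
    | succ n =>
      rw [ent_succ_cons]
      simpa using ih n (by simpa using h)

lemma pair_mono {a b c d : ℕ} (h1 : a ≤ c) (h2 : b ≤ d) : Nat.pair a b ≤ Nat.pair c d := by
  calc Nat.pair a b ≤ Nat.pair c b := by
        rcases h1.eq_or_lt with h | h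
        · rw [h]
        · exact (Nat.pair_lt_pair_left b h).le
    _ ≤ Nat.pair c d := by
        rcases h2.eq_or_lt with h | h
        · rw [h]
        · exact (Nat.pair_lt_pair_right c h).le

/-- code of the list consisting of `k` copies of `a` -/
def rep : ℕ → ℕ → ℕ
  | 0, _ => 0
  | k + 1, a => Nat.pair a (rep k a)

lemma rep_mono {k k' a a' : ℕ} (hk : k ≤ k') (ha : a ≤ a') : rep k a ≤ rep k' a' := by
  induction k generalizing k' with
  | zero => simp [rep]
  | succ k ih =>
    obtain ⟨k'', rfl⟩ : ∃ m, k' = m + 1 := ⟨k' - 1, by omega⟩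
    simp only [rep]
    exact pair_mono ha (ih (by omega))

lemma cod_le_rep (a : ℕ) (l : List ℕ) (h : ∀ b ∈ l, b ≤ a) : cod l ≤ rep l.length a := by
  induction l with
  | nil => simp [cod, rep]
  | cons b l ih =>
    simp only [cod, List.length_cons, rep]
    exact pair_mono (h b (by simp)) (ih (fun c hc => h c (by simp [hc])))

/-- a fast growing function -/
def T (a : ℕ) : ℕ := rep (a + 1) (a + 1) + (a + 1)

lemma T_mono {a b : ℕ} (h : a ≤ b) : T a ≤ T b := by
  unfold T
  have := rep_mono (k := a + 1) (k' := b + 1) (a := a + 1) (a' := b + 1) (by omega) (by omega)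
  omega

lemma T_monotone : Monotone T := fun _ _ h => T_mono h

lemma lt_T (a : ℕ) : a + 1 ≤ T a := by unfold T; omega

lemma le_iter (m a : ℕ) : a ≤ T^[m] a := by
  induction m generalizing a with
  | zero => simp
  | succ m ih =>
    rw [Function.iterate_succ_apply]
    exact le_trans (by have := lt_T a; omega) (ih (T a))

lemma iter_mono (m : ℕ) {a b : ℕ} (h : a ≤ b) : T^[m] a ≤ T^[m] b := T_monotone.iterate m h

lemma iter_le_iter {m n : ℕ} (h : m ≤ n) (a : ℕ) : T^[m] a ≤ T^[n] a := by
  obtain ⟨k, rfl⟩ := Nat.exists_eq_add_of_le h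
  rw [Function.iterate_add_apply]
  exact iter_mono m (le_iter k a)

lemma iter_succ_ge (m a : ℕ) : T^[m] a + 1 ≤ T^[m + 1] a := by
  rw [Function.iterate_succ_apply']
  exact lt_T _

/-- thin digit sequences -/
def Thin (z : ℕ → ℕ) : Prop := Bdd z ∧ ∀ m, ∀ᶠ j in atTop, T^[m] (z j) ≤ j

/-- decoding: `n` is the index of the row, `s` an initial segment to be imposed -/
def G (n : ℕ) (s : List ℕ) (x : ℕ → ℕ) (j : ℕ) : ℕ :=
  if j < s.length then min j (s.getD j 0)
  else min j (ent (n + 1) (x (j - 1)))

lemma G_bdd (n : ℕ) (s : List ℕ) (x : ℕ → ℕ) : Bdd (G n s x) := by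
  intro j
  unfold G
  split_ifs <;> exact min_le_left _ _

lemma G_local (n : ℕ) (s : List ℕ) (x y : ℕ → ℕ) (j : ℕ) (h : ∀ i < j, x i = y i) :
    ∀ i ≤ j, G n s x i = G n s y i := by
  intro i hi
  unfold G
  split_ifs
  · rfl
  · rcases Nat.eq_zero_or_pos i with h0 | h0
    · simp [h0]
    · rw [h (i - 1) (by omega)]

lemma G_decode (n N : ℕ) (x z : ℕ → ℕ) (hz : Bdd z)
    (h : ∀ j, N ≤ j → ent (n + 1) (x j) = z (j + 1)) : ∃ s, G n s x = z := by
  refine ⟨(List.range (N + 1)).map z, ?_⟩
  funext j
  unfold G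
  split_ifs with hj
  · simp only [List.length_map, List.length_range] at hj
    rw [List.getD_eq_getElem _ _ (by simpa using hj)]
    simpa using hz j
  · simp only [List.length_map, List.length_range] at hj
    have := h (j - 1) (by omega)
    rw [this, Nat.sub_add_cancel (by omega)]
    exact min_eq_right (hz j)

/-- diagonalisation -/
lemma exists_diag (P : ℕ → ℕ → Prop) (hP : ∀ m, ∀ᶠ j in atTop, P m j) :
    ∃ (k : ℕ → ℕ) (N : ℕ), Tendsto k atTop atTop ∧ ∀ j, N ≤ j → P (k j) j := by
  classical
  choose J hJ using fun m => eventually_atTop.1 (hP m)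
  let k : ℕ → ℕ := fun j => Nat.findGreatest (fun m => J m ≤ j) j
  refine ⟨k, J 0, ?_, ?_⟩
  · rw [tendsto_atTop]
    intro b
    rw [eventually_atTop]
    refine ⟨max b (J b), fun j hj => ?_⟩
    exact Nat.le_findGreatest (le_trans (le_max_left _ _) hj) (le_trans (le_max_right _ _) hj)
  · intro j hj
    apply hJ
    exact Nat.findGreatest_spec (P := fun m => J m ≤ j) (Nat.zero_le j) hj

/-- join of countably many thin sequences -/
lemma join (z : ℕ → ℕ → ℕ) (hz : ∀ n, Thin (z n)) :
    ∃ X : (ℕ → Bool) → (ℕ → ℕ), (∀ w, Thin (X w)) ∧ Function.Injective X ∧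
      ∀ w n, ∃ s, G n s (X w) = z n := by
  have hP : ∀ m, ∀ᶠ j in atTop,
      ∃ a, m ≤ a ∧ (∀ n < m, z n (j + 1) ≤ a) ∧ T^[m + 1] a ≤ j := by
    intro m
    have key : ∀ K, ∀ᶠ j in atTop,
        ∃ a, m ≤ a ∧ (∀ n < K, z n (j + 1) ≤ a) ∧ T^[m + 1] a ≤ j := by
      intro K
      induction K with
      | zero =>
        filter_upwards [eventually_ge_atTop (T^[m + 1] m)] with j hj
        exact ⟨m, le_rfl, fun n hn => absurd hn (by omega), hj⟩
      | succ K ih =>
        have h1 : ∀ᶠ j in atTop, T^[m + 1 + 1] (z K (j + 1)) ≤ j + 1 :=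
          (tendsto_add_atTop_nat 1).eventually ((hz K).2 (m + 1 + 1))
        filter_upwards [ih, h1] with j ⟨a, ha1, ha2, ha3⟩ hj
        refine ⟨max a (z K (j + 1)), le_trans ha1 (le_max_left _ _), ?_, ?_⟩
        · intro n hn
          rcases Nat.lt_succ_iff_lt_or_eq.1 hn with h | h
          · exact le_trans (ha2 n h) (le_max_left _ _)
          · rw [h]; exact le_max_right _ _
        · rw [(T_monotone.iterate (m + 1)).map_max]
          refine max_le ha3 ?_
          have := iter_succ_ge (m + 1) (z K (j + 1))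
          omega
    exact key m
  obtain ⟨k, N, hk, hkN⟩ := exists_diag _ hP
  let b : Bool → ℕ := fun t => if t then 1 else 0
  have hb1 : ∀ t, b t ≤ 1 := by intro t; cases t <;> simp [b]
  have hbinj : ∀ t u, b t = b u → t = u := by
    intro t u; cases t <;> cases u <;> simp [b]
  let L : (ℕ → Bool) → ℕ → List ℕ := fun w j =>
    b (w (j - N)) :: (List.range (k j)).map (fun n => z n (j + 1))
  let X : (ℕ → Bool) → (ℕ → ℕ) := fun w j => if j < N then 0 else cod (L w j)
  have hX : ∀ w j, N ≤ j → X w j = cod (L w j) := by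
    intro w j hj
    simp only [X, if_neg (not_lt.2 hj)]
  have hbound : ∀ w j, N ≤ j → T^[k j] (X w j) ≤ j := by
    intro w j hj
    obtain ⟨a, ha1, ha2, ha3⟩ := hkN j hj
    rw [hX w j hj]
    have h1 : cod (L w j) ≤ T a := by
      have h2 : cod (L w j) ≤ rep (L w j).length (a + 1) := by
        apply cod_le_rep
        intro c hc
        simp only [L, List.mem_cons, List.mem_map, List.mem_range] at hc
        rcases hc with hc | ⟨n, hn, hc⟩
        · rw [hc]
          have := hb1 (w (j - N))
          omega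
        · have := ha2 n hn
          omega
      have h3 : (L w j).length ≤ a + 1 := by simp [L]; exact ha1
      have h4 := rep_mono h3 (le_refl (a + 1))
      unfold T
      omega
    calc T^[k j] (cod (L w j)) ≤ T^[k j] (T a) := iter_mono _ h1
      _ = T^[k j + 1] a := by rw [Function.iterate_succ_apply]
      _ ≤ j := ha3
  refine ⟨X, ?_, ?_, ?_⟩
  · intro w
    refine ⟨?_, ?_⟩
    · intro j
      by_cases hj : j < N
      · simp [X, hj]
      · exact le_trans (le_iter _ _) (hbound w j (not_lt.1 hj))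
    · intro m
      filter_upwards [hk.eventually_ge_atTop m, eventually_ge_atTop N] with j hj1 hj2
      exact le_trans (iter_le_iter hj1 _) (hbound w j hj2)
  · intro w w' h
    funext i
    have h1 := congrFun h (N + i)
    rw [hX w _ (by omega), hX w' _ (by omega)] at h1
    have h2 := congrArg (ent 0) h1
    simp only [L, ent_zero_cons] at h2
    have h3 := hbinj _ _ h2
    simpa using h3
  · intro w n
    obtain ⟨N', hN'⟩ := eventually_atTop.1
      ((hk.eventually_ge_atTop (n + 1)).and (eventually_ge_atTop N))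
    apply G_decode n N' (X w) (z n) (hz n).1
    intro j hj
    obtain ⟨h1, h2⟩ := hN' j hj
    rw [hX w j h2]
    simp only [L]
    rw [ent_succ_cons, ent_cod _ n (by simpa using h1)]
    simp


/-! ### The transfinite construction -/

/-- the index set, a well-order of type `ω₁` -/
abbrev I : Type := (Cardinal.aleph 1).ord.ToType

lemma I_card : Cardinal.mk I = Cardinal.aleph 1 := Cardinal.mk_ord_toType _

lemma countable_iff {α : Type} (s : Set α) : s.Countable ↔ Cardinal.mk s < Cardinal.aleph 1 := by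
  rw [← Cardinal.le_aleph0_iff_set_countable, ← Cardinal.succ_aleph0, Order.lt_succ_iff]

lemma I_Iio (a : I) : (Set.Iio a).Countable := by
  rw [countable_iff]
  simpa using Cardinal.mk_Iio_lt a

lemma exists_rec {J : Type*} [LT J] [WellFoundedLT J] {D : Type*}
    (Q : ∀ a : J, (∀ b, b < a → D) → D → Prop)
    (h : ∀ a f, ∃ d, Q a f d) : ∃ F : J → D, ∀ a, Q a (fun b _ => F b) (F a) := by
  classical
  let wf : WellFounded (α := J) (· < ·) := wellFounded_lt
  let F : J → D := wf.fix (fun a f => Classical.choose (h a f))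
  refine ⟨F, fun a => ?_⟩
  have e : F a = Classical.choose (h a (fun b _ => F b)) := wf.fix_eq _ a
  rw [e]
  exact Classical.choose_spec (h a (fun b _ => F b))

/-- the data chosen at each stage: a thin digit sequence and a rational translation -/
abbrev D : Type := {z : ℕ → ℕ // Thin z} × ℚ

/-- the real number attached to the data -/
noncomputable def Y (d : D) : ℝ := io d.1.1 + d.2

lemma thin_zero : Thin (fun _ => 0) := by
  refine ⟨fun j => Nat.zero_le _, fun m => ?_⟩
  exact eventually_ge_atTop _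

instance : Uncountable (ℕ → Bool) := by
  rw [← Cardinal.aleph0_lt_mk_iff]
  simpa using Cardinal.cantor Cardinal.aleph0

/-- the requirement at stage `a` -/
def Q (N : I → ℚ × ℚ) (a : I) (f : ∀ b, b < a → D) (d : D) : Prop :=
  (∀ b (hb : b < a), ∃ n s, G n s d.1.1 = (f b hb).1.1) ∧
  (∀ b c e (hb : b < a) (hc : c < a) (he : e < a),
    Y d ≠ Y (f b hb) + (Y (f c hc) - Y (f e he))) ∧
  ((N a).1 < (N a).2 → ((N a).1 : ℝ) < Y d ∧ Y d < ((N a).2 : ℝ))

lemma step (N : I → ℚ × ℚ) (a : I) (f : ∀ b, b < a → D) : ∃ d, Q N a f d := by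
  have hc : Countable (Iio a) := (I_Iio a).to_subtype
  -- enumerate the earlier sequences
  let S : Set (ℕ → ℕ) := insert (fun _ => 0) (range fun b : Iio a => (f b.1 b.2).1.1)
  have hSc : S.Countable := (countable_range _).insert _
  have hSn : S.Nonempty := ⟨_, mem_insert _ _⟩
  obtain ⟨z, hz⟩ := hSc.exists_eq_range hSn
  have hzt : ∀ n, Thin (z n) := by
    intro n
    have : z n ∈ S := by rw [hz]; exact mem_range_self n
    rcases this with h | ⟨b, h⟩
    · rw [h]; exact thin_zero
    · rw [← h]; exact (f b.1 b.2).1.2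
  obtain ⟨X, hX1, hX2, hX3⟩ := join z hzt
  -- the forbidden values
  let A : Set ℝ := range fun p : (Iio a × Iio a × Iio a) × ℚ =>
    Y (f p.1.1.1 p.1.1.2) + (Y (f p.1.2.1.1 p.1.2.1.2) - Y (f p.1.2.2.1 p.1.2.2.2)) - p.2
  have hA : A.Countable := countable_range _
  have hinj : Function.Injective fun w => io (X w) := by
    intro w w' h
    exact hX2 (io_injOn (hX1 w).1 (hX1 w').1 h)
  have hpre : ((fun w => io (X w)) ⁻¹' A).Countable := hA.preimage hinj
  obtain ⟨w, hw⟩ : ∃ w, io (X w) ∉ A := by
    by_contra hcon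
    push Not at hcon
    have : ((fun w => io (X w)) ⁻¹' A) = univ := eq_univ_of_forall hcon
    rw [this] at hpre
    exact (not_countable_univ_iff.2 inferInstance) hpre
  -- the rational translation
  obtain ⟨t, ht⟩ : ∃ t : ℚ, (N a).1 < (N a).2 →
      ((N a).1 : ℝ) < io (X w) + t ∧ io (X w) + t < ((N a).2 : ℝ) := by
    by_cases hN : (N a).1 < (N a).2
    · have hN' : ((N a).1 : ℝ) < ((N a).2 : ℝ) := by exact_mod_cast hN
      obtain ⟨t, ht1, ht2⟩ := exists_rat_btwn
        (show ((N a).1 : ℝ) - io (X w) < ((N a).2 : ℝ) - io (X w) by linarith)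
      exact ⟨t, fun _ => ⟨by linarith, by linarith⟩⟩
    · exact ⟨0, fun h => absurd h hN⟩
  refine ⟨(⟨X w, hX1 w⟩, t), ?_, ?_, ht⟩
  · intro b hb
    have : (f b hb).1.1 ∈ S := mem_insert_of_mem _ ⟨⟨b, hb⟩, rfl⟩
    rw [hz] at this
    obtain ⟨n, hn⟩ := this
    obtain ⟨s, hs⟩ := hX3 w n
    exact ⟨n, s, by rw [← hn]; exact hs⟩
  · intro b c e hb hc he hcon
    apply hw
    refine ⟨((⟨b, hb⟩, ⟨c, hc⟩, ⟨e, he⟩), t), ?_⟩
    simp only
    rw [← hcon]
    simp [Y]

/-- the combinatorial object -/
structure Good (N : I → ℚ × ℚ) (F : I → D) : Prop where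
  dec : ∀ a b, b < a → ∃ n s, G n s (F a).1.1 = (F b).1.1
  ind : ∀ a b c e, b < a → c < a → e < a → Y (F a) ≠ Y (F b) + (Y (F c) - Y (F e))
  loc : ∀ a, (N a).1 < (N a).2 → ((N a).1 : ℝ) < Y (F a) ∧ Y (F a) < ((N a).2 : ℝ)

lemma exists_good (N : I → ℚ × ℚ) : ∃ F, Good N F := by
  obtain ⟨F, hF⟩ := exists_rec (Q N) (step N)
  exact ⟨F, fun a b hb => (hF a).1 b hb, fun a b c e hb hc he => (hF a).2.1 b c e hb hc he,
    fun a => (hF a).2.2⟩

lemma Good.inj {N : I → ℚ × ℚ} {F : I → D} (h : Good N F) : Function.Injective fun a => Y (F a) := by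
  have key : ∀ a b, b < a → Y (F a) ≠ Y (F b) := by
    intro a b hb hcon
    exact h.ind a b b b hb hb hb (by rw [hcon]; ring)
  intro a b hab
  rcases lt_trichotomy a b with hlt | heq | hgt
  · exact absurd hab.symm (key b a hlt)
  · exact heq
  · exact absurd hab (key a b hgt)

/-- the crucial estimate -/
lemma contract {F : I → D} {a a' b b' : I} {n : ℕ} {s : List ℕ}
    (h1 : G n s (F b).1.1 = (F a).1.1) (h2 : G n s (F b').1.1 = (F a').1.1)
    (h3 : (F a).2 = (F a').2) (h4 : (F b).2 = (F b').2) :
    |Y (F a) - Y (F a')| ≤ |Y (F b) - Y (F b')| := by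
  have := io_contract (G := G n s) (G_bdd n s) (G_local n s) (F b).1.2.1 (F b').1.2.1
  rw [h1, h2] at this
  have e1 : Y (F a) - Y (F a') = io (F a).1.1 - io (F a').1.1 := by
    unfold Y; rw [h3]; ring
  have e2 : Y (F b) - Y (F b') = io (F b).1.1 - io (F b').1.1 := by
    unfold Y; rw [h4]; ring
  rw [e1, e2]
  exact this

/-- the main combinatorial lemma: a permutation of the index set whose induced map is
non-expansive fixes all but countably many indices -/
lemma Good.fixes {N : I → ℚ × ℚ} {F : I → D} (h : Good N F) (p : I → I)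
    (hp : Function.Injective p)
    (hne : ∀ a b, |Y (F (p a)) - Y (F (p b))| ≤ |Y (F a) - Y (F b)|) :
    {a | p a ≠ a}.Countable := by
  classical
  -- the set of indices that are moved up
  let S : Set I := {a | a < p a}
  have hS : S.Countable := by
    choose n s hns using h.dec
    let c : S → ℕ × List ℕ × ℚ × ℚ := fun a =>
      (n (p a.1) a.1 a.2, s (p a.1) a.1 a.2, (F a.1).2, (F (p a.1)).2)
    have hcinj : Function.Injective c := by
      rintro ⟨a, ha⟩ ⟨b, hb⟩ hab
      simp only [c, Prod.mk.injEq] at hab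
      obtain ⟨e1, e2, e3, e4⟩ := hab
      have h1 := hns (p a) a ha
      have h2 := hns (p b) b hb
      rw [← e1, ← e2] at h2
      have h3 := contract h1 h2 e3 e4
      have h4 := le_antisymm h3 (hne a b)
      by_contra hne'
      have hab' : a ≠ b := fun hcon => hne' (Subtype.ext hcon)
      have hpab : p a ≠ p b := fun hcon => hab' (hp hcon)
      rcases lt_or_gt_of_ne hpab with hlt | hgt
      · -- p b is the largest
        have ha' : a < p b := lt_trans ha hlt
        rcases abs_eq_abs.1 h4 with h5 | h5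
        · exact h.ind (p b) (p a) b a hlt hb ha' (by linarith)
        · exact h.ind (p b) (p a) a b hlt ha' hb (by linarith)
      · have hb' : b < p a := lt_trans hb hgt
        rcases abs_eq_abs.1 h4 with h5 | h5
        · exact h.ind (p a) (p b) a b hgt ha hb' (by linarith)
        · exact h.ind (p a) (p b) b a hgt hb' ha (by linarith)
    have : Countable S := hcinj.countable
    exact this
  have hU : (⋃ k : ℕ, (p^[k]) ⁻¹' S).Countable :=
    countable_iUnion fun k => hS.preimage (hp.iterate k)
  refine hU.mono ?_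
  intro a ha
  by_contra hcon
  apply ha
  simp only [mem_iUnion, mem_preimage, not_exists] at hcon
  have hle : ∀ k, p (p^[k] a) ≤ p^[k] a := fun k => not_lt.1 (hcon k)
  have hanti : Antitone fun k => p^[k] a := by
    apply antitone_nat_of_succ_le
    intro k
    rw [Function.iterate_succ_apply']
    exact hle k
  -- stabilisation
  obtain ⟨k, hk⟩ : ∃ k, p (p^[k] a) = p^[k] a := by
    by_contra hne2
    push Not at hne2
    have hlt : ∀ k, p^[k + 1] a < p^[k] a := fun k => by
      rw [Function.iterate_succ_apply']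
      exact lt_of_le_of_ne (hle k) (hne2 k)
    exact (RelEmbedding.not_wellFounded (r := ((· < ·) : I → I → Prop))
      (RelEmbedding.natGT (fun k => p^[k] a) hlt)) wellFounded_lt
  have h1 : p^[k] (p a) = p^[k] a := by
    rw [← Function.iterate_succ_apply, Function.iterate_succ_apply']
    exact hk
  exact hp.iterate k h1

/-- **Main theorem** (in ZFC): there is an `ℵ₁`-dense set of reals which is plastic. -/
theorem result : ∃ X : Set ℝ, AlephOneDense X ∧ Plastic X := by
  classical
  -- the assignment of rational intervals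
  have hcard : Cardinal.mk I = Cardinal.mk (I × (ℚ × ℚ)) := by
    rw [Cardinal.mk_prod, I_card]
    simp
  obtain ⟨e⟩ := Cardinal.eq.1 hcard
  let N : I → ℚ × ℚ := fun a => (e a).2
  obtain ⟨F, hF⟩ := exists_good N
  let y : I → ℝ := fun a => Y (F a)
  have hy : Function.Injective y := hF.inj
  have hdense : AlephOneDense (range y) := by
    intro U hU hne
    apply le_antisymm
    · calc Cardinal.mk (range y ∩ U : Set ℝ) ≤ Cardinal.mk (range y) :=
            Cardinal.mk_le_mk_of_subset inter_subset_left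
        _ ≤ Cardinal.mk I := Cardinal.mk_range_le
        _ = Cardinal.aleph 1 := I_card
    · obtain ⟨x, hx⟩ := hne
      obtain ⟨ε, hε, hball⟩ := Metric.isOpen_iff.1 hU x hx
      obtain ⟨q1, h1, h2⟩ := exists_rat_btwn (show x - ε < x by linarith)
      obtain ⟨q2, h3, h4⟩ := exists_rat_btwn (show x < x + ε by linarith)
      have hq : q1 < q2 := by
        have : (q1 : ℝ) < q2 := by linarith
        exact_mod_cast this
      have hmem : ∀ i : I, y (e.symm (i, (q1, q2))) ∈ range y ∩ U := by
        intro i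
        refine ⟨mem_range_self _, hball ?_⟩
        have hN : N (e.symm (i, (q1, q2))) = (q1, q2) := by simp [N]
        have := hF.loc (e.symm (i, (q1, q2))) (by rw [hN]; exact hq)
        rw [hN] at this
        rw [Metric.mem_ball, Real.dist_eq, abs_lt]
        constructor <;> simp only [y] <;> linarith [this.1, this.2]
      rw [← I_card]
      refine Cardinal.mk_le_of_injective (f := fun i => ⟨y (e.symm (i, (q1, q2))), hmem i⟩) ?_
      intro i j hij
      have h5 : y (e.symm (i, (q1, q2))) = y (e.symm (j, (q1, q2))) := congrArg Subtype.val hij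
      have h6 := e.symm.injective (hy h5)
      exact (Prod.ext_iff.1 h6).1
  refine ⟨range y, hdense, ?_⟩
  intro f hf hfne
  -- the induced permutation
  have hex : ∀ a, ∃ b, y b = (f ⟨y a, mem_range_self a⟩ : ℝ) := fun a =>
    (f ⟨y a, mem_range_self a⟩).2
  choose p hp using hex
  have hpinj : Function.Injective p := by
    intro a b hab
    have h1 : (f ⟨y a, mem_range_self a⟩ : ℝ) = (f ⟨y b, mem_range_self b⟩ : ℝ) := by
      rw [← hp a, ← hp b, hab]
    have h2 := hf.1 (Subtype.ext h1)
    exact hy (congrArg Subtype.val h2)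
  have hpne : ∀ a b, |Y (F (p a)) - Y (F (p b))| ≤ |Y (F a) - Y (F b)| := by
    intro a b
    have h1 := hfne ⟨y a, mem_range_self a⟩ ⟨y b, mem_range_self b⟩
    rw [Subtype.dist_eq, Subtype.dist_eq, Real.dist_eq, Real.dist_eq, ← hp a, ← hp b] at h1
    exact h1
  have hfix := hF.fixes p hpinj hpne
  -- `f` is the identity
  have hid : ∀ x : range y, f x = x := by
    intro x
    by_contra hne
    have hpos : 0 < dist (f x) x := dist_pos.2 hne
    set ε := dist (f x) x with hε
    -- a fixed point close to `x`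
    have hc : Cardinal.mk (range y ∩ Metric.ball (x : ℝ) (ε / 2) : Set ℝ) = Cardinal.aleph 1 :=
      hdense _ Metric.isOpen_ball ⟨x, Metric.mem_ball_self (by linarith)⟩
    have hnc : ¬ (range y ∩ Metric.ball (x : ℝ) (ε / 2)).Countable := by
      rw [countable_iff, hc]
      exact lt_irrefl _
    have : ∃ a, p a = a ∧ y a ∈ Metric.ball (x : ℝ) (ε / 2) := by
      by_contra hcon
      push Not at hcon
      apply hnc
      refine (hfix.image y).mono ?_
      rintro z ⟨⟨a, rfl⟩, hz⟩
      exact ⟨a, fun h => hcon a h hz, rfl⟩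
    obtain ⟨a, ha1, ha2⟩ := this
    have h1 : f ⟨y a, mem_range_self a⟩ = ⟨y a, mem_range_self a⟩ := by
      apply Subtype.ext
      rw [← hp a, ha1]
    have h2 := hfne x ⟨y a, mem_range_self a⟩
    rw [h1] at h2
    have h3 : dist x ⟨y a, mem_range_self a⟩ < ε / 2 := by
      rw [Subtype.dist_eq, dist_comm]
      exact ha2
    have h4 : dist (f x) x ≤ dist (f x) ⟨y a, mem_range_self a⟩ + dist ⟨y a, mem_range_self a⟩ x :=
      dist_triangle _ _ _
    rw [dist_comm ⟨y a, mem_range_self a⟩ x] at h4
    linarith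
  intro x z
  rw [hid x, hid z]

end Pool.Agent.Results.MP_d907e7_lc.PlasticAlephOneDense
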